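import Mathlib
import Pool.Agent.P.MP_ad1e8a_co.FC10

/-!
For `m ≥ 2` and `n ≥ 2`, the spectral gap of the generalised pancake graph `P_m(n)` equals the gap
of the quotient matrix exactly when `m ≤ 5`, or `m = 6` and `n ≥ 7`.
-/

namespace Pool.Agent.Results.MP_ad1e8a_co.Classification

open Pool.Agent.P.MP_ad1e8a_co

theorem result (m n : ℕ) [NeZero m] (hm : 2 ≤ m) (hn : 2 ≤ n) :
    ∃ Q : Matrix (ZMod m × Fin n) (ZMod m × Fin n) ℝ,
      (∀ a b, ∀ u ∈ part m n a,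
        Q a b = ((part m n b ∩ (pancake m n).neighborSet u).ncard : ℝ)) ∧
      (gap (adjMat m n) = gap Q ↔ m ≤ 5 ∨ (m = 6 ∧ 7 ≤ n)) := by
  obtain rfl | rfl | rfl | rfl | rfl | h :
    m = 2 ∨ m = 3 ∨ m = 4 ∨ m = 5 ∨ m = 6 ∨ 7 ≤ m := by omega
  · exact ⟨_, FC.Sc_two.spec, iff_of_true (FC.two_colours hn) (by omega)⟩
  · exact ⟨_, (FC.Sc_three le_rfl).spec, iff_of_true (FC.three_colours hn) (by omega)⟩
  · exact ⟨_, (FC.Sc_three (by norm_num)).spec, iff_of_true (FC.four_colours hn) (by omega)⟩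
  · exact ⟨_, (FC.Sc_three (by norm_num)).spec, iff_of_true (FC.five_colours hn) (by omega)⟩
  · rcases Nat.lt_or_ge n 7 with h | h
    · exact ⟨_, QM_spec (by norm_num), iff_of_false (FC.six_small hn (by omega)).ne (by omega)⟩
    · exact ⟨_, (FC.Sc_three (by norm_num)).spec, iff_of_true (FC.six_colours h) (by omega)⟩
  · exact ⟨_, QM_spec (by omega), iff_of_false (S7.gap_lt hn h).ne (by omega)⟩

end Pool.Agent.Results.MP_ad1e8a_co.Classification
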